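import Pool.Agent.N728.QL.Def
import Pool.Agent.Erdos456.Mertens

set_option autoImplicit false

/-! Mertens' theorem for `VW` (project QL, helper728). -/

namespace Pool.Agent.N40.QL

open Finset Pool.Agent.N728.QL

lemma fac_bounds (p : ℕ) (hp : p.Prime) :
    0 ≤ -Real.log (1 - 1 / (p : ℝ)) - 1 / (p : ℝ) ∧
      -Real.log (1 - 1 / (p : ℝ)) - 1 / (p : ℝ) ≤ (Real.log 2)⁻¹ * (Real.log p / (p * (p - 1))) := by
  have hp2 : (2 : ℝ) ≤ p := by exact_mod_cast hp.two_le
  have hp0 : (0 : ℝ) < p := by linarith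
  have hp1 : (0 : ℝ) < p - 1 := by linarith
  have hx : (0 : ℝ) < 1 - 1 / (p : ℝ) := by
    rw [sub_pos, div_lt_one hp0]; linarith
  constructor
  · have := Real.log_le_sub_one_of_pos hx
    linarith
  · have h1 : -Real.log (1 - 1 / (p : ℝ)) = Real.log ((1 - 1 / (p : ℝ))⁻¹) := by
      rw [Real.log_inv]
    have h2 := Real.log_le_sub_one_of_pos (inv_pos.2 hx)
    have h3 : (1 - 1 / (p : ℝ))⁻¹ - 1 - 1 / (p : ℝ) = 1 / (p * (p - 1)) := by
      have : (1 - 1 / (p : ℝ)) = (p - 1) / p := by field_simp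
      rw [this]
      field_simp
      ring
    have hl2 : (0 : ℝ) < Real.log 2 := Real.log_pos (by norm_num)
    have h4 : Real.log 2 ≤ Real.log p := Real.log_le_log (by norm_num) hp2
    calc -Real.log (1 - 1 / (p : ℝ)) - 1 / (p : ℝ)
        ≤ (1 - 1 / (p : ℝ))⁻¹ - 1 - 1 / (p : ℝ) := by rw [h1]; linarith
      _ = (Real.log 2)⁻¹ * (Real.log 2 / (p * (p - 1))) := by
          rw [h3]; field_simp
      _ ≤ _ := by
          apply mul_le_mul_of_nonneg_left _ (inv_nonneg.2 hl2.le)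
          exact div_le_div_of_nonneg_right h4 (mul_pos hp0 hp1).le

lemma VW_pos (w y : ℕ) : 0 < VW w y := by
  unfold VW
  apply Finset.prod_pos
  intro p hp
  have hp2 : (2 : ℝ) ≤ p := by exact_mod_cast (Finset.mem_filter.1 hp).2.two_le
  rw [sub_pos, div_lt_one (by linarith)]; linarith

lemma VW_le_one (w y : ℕ) : VW w y ≤ 1 := by
  unfold VW
  apply Finset.prod_le_one
  · intro p hp
    have hp2 : (2 : ℝ) ≤ p := by exact_mod_cast (Finset.mem_filter.1 hp).2.two_le
    rw [sub_nonneg, div_le_one (by linarith)]; linarith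
  · intro p hp
    have : (0 : ℝ) ≤ 1 / (p : ℝ) := by positivity
    linarith

lemma VW_mul (w y : ℕ) (h : w ≤ y) : VW 0 w * VW w y = VW 0 y := by
  unfold VW
  rw [← Finset.prod_union]
  · congr 1
    rw [← Finset.filter_union]
    congr 1
    ext p
    simp only [Finset.mem_union, Finset.mem_Ioc]
    omega
  · rw [Finset.disjoint_left]
    intro p hp hp'
    simp only [Finset.mem_filter, Finset.mem_Ioc] at hp hp'
    omega

lemma VW_log : ∃ C : ℝ, 0 ≤ C ∧ ∀ z : ℕ, 2 ≤ z →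
    |Real.log (VW 0 z)⁻¹ - Real.log (Real.log z)| ≤ C := by
  obtain ⟨C1, hC10, hC1⟩ := Pool.Agent.Erdos456.Mert.sum_small_bound
  obtain ⟨C2, hC2⟩ := Pool.Agent.Erdos456.Mert.mertens_inv
  have hl2 : (0 : ℝ) < Real.log 2 := Real.log_pos (by norm_num)
  refine ⟨|Real.log (VW 0 2)⁻¹ - Real.log (Real.log (2 : ℕ))| + (|C2| + (Real.log 2)⁻¹ * C1), by positivity, ?_⟩
  intro z hz
  rcases Nat.lt_or_ge 2 z with h3 | h3
  · have hlog : Real.log (VW 0 z)⁻¹ = ∑ p ∈ (Icc 1 z).filter Nat.Prime, -Real.log (1 - 1 / (p : ℝ)) := by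
      rw [Real.log_inv]
      unfold VW
      rw [Real.log_prod]
      · rw [← Finset.sum_neg_distrib]
        rfl
      · intro p hp
        have hp2 : (2 : ℝ) ≤ p := by exact_mod_cast (Finset.mem_filter.1 hp).2.two_le
        have : 0 < 1 - 1 / (p : ℝ) := by rw [sub_pos, div_lt_one (by linarith)]; linarith
        exact this.ne'
    have hd : ∑ p ∈ (Icc 1 z).filter Nat.Prime, -Real.log (1 - 1 / (p : ℝ)) -
        ∑ p ∈ (Icc 1 z).filter Nat.Prime, (1 : ℝ) / p =
        ∑ p ∈ (Icc 1 z).filter Nat.Prime, (-Real.log (1 - 1 / (p : ℝ)) - 1 / (p : ℝ)) := by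
      rw [Finset.sum_sub_distrib]
    have hd0 : 0 ≤ ∑ p ∈ (Icc 1 z).filter Nat.Prime, (-Real.log (1 - 1 / (p : ℝ)) - 1 / (p : ℝ)) :=
      Finset.sum_nonneg fun p hp => (fac_bounds p (Finset.mem_filter.1 hp).2).1
    have hd1 : ∑ p ∈ (Icc 1 z).filter Nat.Prime, (-Real.log (1 - 1 / (p : ℝ)) - 1 / (p : ℝ)) ≤
        (Real.log 2)⁻¹ * C1 := by
      refine (Finset.sum_le_sum fun p hp => (fac_bounds p (Finset.mem_filter.1 hp).2).2).trans ?_
      rw [← Finset.mul_sum]
      exact mul_le_mul_of_nonneg_left (hC1 z) (inv_nonneg.2 hl2.le)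
    have h2 := abs_le.1 (hC2 z h3)
    have h4 : C2 ≤ |C2| := le_abs_self _
    have h5 : 0 ≤ |Real.log (VW 0 2)⁻¹ - Real.log (Real.log (2 : ℕ))| := abs_nonneg _
    rw [hlog, abs_le]
    constructor
    · linarith [h2.1]
    · linarith [h2.2]
  · have : z = 2 := by omega
    subst this
    have : 0 ≤ |C2| + (Real.log 2)⁻¹ * C1 := by positivity
    linarith

theorem t_MER : S_MER := by
  obtain ⟨C, hC0, hC⟩ := VW_log
  have hkey : ∀ z : ℕ, 2 ≤ z → ∃ L : ℝ, |L| ≤ C ∧ (VW 0 z)⁻¹ = Real.exp L * Real.log z := by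
    intro z hz
    refine ⟨_, hC z hz, ?_⟩
    have hlz : 0 < Real.log z := Real.log_pos (by exact_mod_cast hz)
    rw [Real.exp_sub, Real.exp_log (inv_pos.2 (VW_pos 0 z)), Real.exp_log hlz]
    field_simp
  refine ⟨Real.exp (2 * C), Real.one_le_exp (by positivity), ?_, ?_⟩
  · intro w y hw hwy
    obtain ⟨L, hL, hLe⟩ := hkey y (hw.trans hwy)
    obtain ⟨L', hL', hLe'⟩ := hkey w hw
    have hlw : 0 < Real.log w := Real.log_pos (by exact_mod_cast hw)
    have hly : 0 < Real.log y := Real.log_pos (by exact_mod_cast (hw.trans hwy))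
    have hq : 0 < Real.log y / Real.log w := div_pos hly hlw
    have h1 : (VW w y)⁻¹ = Real.exp (L - L') * (Real.log y / Real.log w) := by
      have hm := VW_mul w y hwy
      have h0 := VW_pos 0 w
      have : (VW w y)⁻¹ = (VW 0 y)⁻¹ / (VW 0 w)⁻¹ := by
        rw [← hm]
        have := VW_pos w y
        field_simp
      rw [this, hLe, hLe', Real.exp_sub]
      have := Real.exp_pos L'
      field_simp
    rw [h1]
    rw [abs_le] at hL hL'
    constructor
    · rw [← mul_assoc, ← Real.exp_add]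
      have : 1 ≤ Real.exp (2 * C + (L - L')) := Real.one_le_exp (by linarith [hL.1, hL'.2])
      nlinarith
    · apply mul_le_mul_of_nonneg_right _ hq.le
      exact Real.exp_le_exp.2 (by linarith [hL.2, hL'.1])
  · intro z hz
    obtain ⟨L, hL, hLe⟩ := hkey z hz
    have hlz : 0 < Real.log z := Real.log_pos (by exact_mod_cast hz)
    rw [hLe]
    rw [abs_le] at hL
    constructor
    · rw [← mul_assoc, ← Real.exp_add]
      have : 1 ≤ Real.exp (2 * C + L) := Real.one_le_exp (by linarith [hL.1])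
      nlinarith
    · apply mul_le_mul_of_nonneg_right _ hlz.le
      exact Real.exp_le_exp.2 (by linarith [hL.2])

end Pool.Agent.N40.QL
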