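import Pool.Agent.N728.QL.Def
import Pool.Agent.Erdos456.Mertens
import Pool.Agent.N40.QL.MER

set_option autoImplicit false

/-! The windows that contain a divisor (project QL, helper728). -/

namespace Pool.Agent.N40.QL

open Finset Pool.Agent.N728.QL

lemma sqf_prod (A : Finset ℕ) (hA : ∀ p ∈ A, p.Prime) : Squarefree (∏ p ∈ A, p) := by
  classical
  induction A using Finset.induction_on with
  | empty => simp
  | insert q A hq ih =>
    rw [Finset.prod_insert hq, Nat.squarefree_mul_iff]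
    have hA' : ∀ p ∈ A, p.Prime := fun p hp => hA p (Finset.mem_insert_of_mem hp)
    have hqp := hA q (Finset.mem_insert_self q A)
    refine ⟨?_, hqp.squarefree, ih hA'⟩
    refine Nat.Coprime.prod_right fun p hp => ?_
    exact (Nat.coprime_primes hqp (hA' p hp)).2 (fun h => hq (h ▸ hp))

lemma div_prod (A : Finset ℕ) (hA : ∀ p ∈ A, p.Prime) :
    (∏ p ∈ A, p).divisors = A.powerset.image (fun B => ∏ p ∈ B, p) := by
  have h0 : (∏ p ∈ A, p) ≠ 0 := Finset.prod_ne_zero_iff.2 fun p hp => (hA p hp).ne_zero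
  ext d
  simp only [Nat.mem_divisors, Finset.mem_image, Finset.mem_powerset]
  constructor
  · rintro ⟨hd, -⟩
    refine ⟨d.primeFactors, ?_, ?_⟩
    · have := Nat.primeFactors_mono hd h0
      rwa [Nat.primeFactors_prod hA] at this
    · exact Nat.prod_primeFactors_of_squarefree ((sqf_prod A hA).squarefree_of_dvd hd)
  · rintro ⟨B, hB, rfl⟩
    exact ⟨Finset.prod_dvd_prod_of_subset _ _ _ hB, h0⟩

lemma sum_div (A : Finset ℕ) (hA : ∀ p ∈ A, p.Prime) (f : ℕ → ℝ) :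
    ∑ M ∈ (∏ p ∈ A, p).divisors, f M = ∑ B ∈ A.powerset, f (∏ p ∈ B, p) := by
  rw [div_prod A hA, Finset.sum_image]
  intro B hB B' hB' h
  have hB1 := Finset.mem_powerset.1 hB
  have hB2 := Finset.mem_powerset.1 hB'
  have h1 := Nat.primeFactors_prod (s := B) (fun p hp => hA p (hB1 hp))
  have h2 := Nat.primeFactors_prod (s := B') (fun p hp => hA p (hB2 hp))
  rw [← h1, ← h2]
  simp only at h
  rw [h]

lemma card_div_le (A : Finset ℕ) (hA : ∀ p ∈ A, p.Prime) : (∏ p ∈ A, p).divisors.card ≤ 2 ^ A.card := by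
  rw [div_prod A hA]
  exact Finset.card_image_le.trans (by rw [Finset.card_powerset])

lemma card_Wn1 (ρ : ℝ) (A : Finset ℕ) (hA : ∀ p ∈ A, p.Prime) : (Wn ρ (∏ p ∈ A, p)).card ≤ 2 ^ A.card :=
  Finset.card_image_le.trans (card_div_le A hA)

lemma card_Wn2 (ρ : ℝ) (hρ : 1 < ρ) (M : ℕ) (hM : M ≠ 0) :
    ((Wn ρ M).card : ℝ) ≤ Real.log M / Real.log ρ + 1 := by
  have hl : 0 < Real.log ρ := Real.log_pos hρ
  have hM1 : (1 : ℝ) ≤ M := by exact_mod_cast Nat.one_le_iff_ne_zero.2 hM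
  have h1 : Wn ρ M ⊆ Finset.range (⌊Real.log M / Real.log ρ⌋₊ + 1) := by
    intro j hj
    unfold Wn at hj
    rw [Finset.mem_image] at hj
    obtain ⟨m, hm, rfl⟩ := hj
    rw [Finset.mem_range, Nat.lt_succ_iff]
    unfold jw
    apply Nat.floor_le_floor
    apply div_le_div_of_nonneg_right _ hl.le
    have hm0 : 0 < m := Nat.pos_of_mem_divisors hm
    apply Real.log_le_log (by exact_mod_cast hm0)
    exact_mod_cast Nat.divisor_le hm
  have h2 := Finset.card_le_card h1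
  rw [Finset.card_range] at h2
  have h3 : ((Wn ρ M).card : ℝ) ≤ ((⌊Real.log M / Real.log ρ⌋₊ + 1 : ℕ) : ℝ) := by exact_mod_cast h2
  have h4 : ((⌊Real.log M / Real.log ρ⌋₊ : ℕ) : ℝ) ≤ Real.log M / Real.log ρ :=
    Nat.floor_le (div_nonneg (Real.log_nonneg hM1) hl.le)
  push_cast at h3
  linarith

lemma totient_prod (A : Finset ℕ) (hA : ∀ p ∈ A, p.Prime) :
    (Nat.totient (∏ p ∈ A, p) : ℝ) = ∏ p ∈ A, ((p : ℝ) - 1) := by
  classical
  induction A using Finset.induction_on with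
  | empty => simp
  | insert q A hq ih =>
    have hA' : ∀ p ∈ A, p.Prime := fun p hp => hA p (Finset.mem_insert_of_mem hp)
    have hqp := hA q (Finset.mem_insert_self q A)
    rw [Finset.prod_insert hq, Finset.prod_insert hq, Nat.totient_mul, Nat.cast_mul, ih hA',
      Nat.totient_prime hqp, Nat.cast_sub hqp.one_lt.le]
    · simp
    · refine Nat.Coprime.prod_right fun p hp => ?_
      exact (Nat.coprime_primes hqp (hA' p hp)).2 (fun h => hq (h ▸ hp))

/-- `∑_{A ⊆ S} f(A) L(A) ≤ (∑_{p ∈ S} f(p) L(p)) ∏ (1 + f(p))` -/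
lemma sum_log_le (S : Finset ℕ) (f L : ℕ → ℝ) (hf : ∀ p ∈ S, 0 ≤ f p) (hL : ∀ p ∈ S, 0 ≤ L p) :
    ∑ A ∈ S.powerset, (∏ p ∈ A, f p) * ∑ p ∈ A, L p ≤ (∑ p ∈ S, f p * L p) * ∏ p ∈ S, (1 + f p) := by
  classical
  induction S using Finset.induction_on with
  | empty => simp
  | insert q S hq ih =>
    have hf' : ∀ p ∈ S, 0 ≤ f p := fun p hp => hf p (Finset.mem_insert_of_mem hp)
    have hL' : ∀ p ∈ S, 0 ≤ L p := fun p hp => hL p (Finset.mem_insert_of_mem hp)
    have hfq := hf q (Finset.mem_insert_self q S)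
    have hLq := hL q (Finset.mem_insert_self q S)
    have ih' := ih hf' hL'
    have hG : ∑ A ∈ S.powerset, ∏ p ∈ A, f p = ∏ p ∈ S, (1 + f p) := by
      rw [Finset.prod_one_add]
    have hG0 : 0 ≤ ∏ p ∈ S, (1 + f p) := Finset.prod_nonneg fun p hp => by linarith [hf' p hp]
    rw [Finset.sum_powerset_insert hq, Finset.sum_insert hq, Finset.prod_insert hq]
    have h2 : ∑ A ∈ S.powerset, (∏ p ∈ insert q A, f p) * ∑ p ∈ insert q A, L p =
        f q * ∑ A ∈ S.powerset, (∏ p ∈ A, f p) * ∑ p ∈ A, L p + f q * L q * ∏ p ∈ S, (1 + f p) := by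
      rw [← hG, Finset.mul_sum, Finset.mul_sum, ← Finset.sum_add_distrib]
      apply Finset.sum_congr rfl
      intro A hA
      have hqA : q ∉ A := fun h => hq (Finset.mem_powerset.1 hA h)
      rw [Finset.prod_insert hqA, Finset.sum_insert hqA]
      ring
    rw [h2]
    have h3 : (1 + f q) * ∑ A ∈ S.powerset, (∏ p ∈ A, f p) * ∑ p ∈ A, L p ≤
        (1 + f q) * ((∑ p ∈ S, f p * L p) * ∏ p ∈ S, (1 + f p)) :=
      mul_le_mul_of_nonneg_left ih' (by linarith)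
    have h4 : 0 ≤ f q * (f q * L q * ∏ p ∈ S, (1 + f p)) := by positivity
    nlinarith

/-- the bound for the sum over the divisors -/
lemma core (S : Finset ℕ) (hS : ∀ p ∈ S, p.Prime) (ρ : ℝ) (hρ : 1 < ρ) :
    ∑ M ∈ (∏ p ∈ S, p).divisors, ((Wn ρ M).card : ℝ) / (Nat.totient M : ℝ) ≤
      (∏ p ∈ S, (1 + √2 / ((p : ℝ) - 1))) *
        √((∑ p ∈ S, √2 / ((p : ℝ) - 1) * Real.log p) / Real.log ρ + 1) := by
  have hl : 0 < Real.log ρ := Real.log_pos hρ
  set f : ℕ → ℝ := fun p => √2 / ((p : ℝ) - 1) with hf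
  have hf0 : ∀ p ∈ S, 0 ≤ f p := by
    intro p hp
    have : (1 : ℝ) < p := by exact_mod_cast (hS p hp).one_lt
    simp only [hf]
    apply div_nonneg (Real.sqrt_nonneg _) (by linarith)
  have hL0 : ∀ p ∈ S, 0 ≤ Real.log (p : ℝ) := fun p hp =>
    Real.log_nonneg (by exact_mod_cast (hS p hp).one_lt.le)
  rw [sum_div S hS]
  set G : ℝ := ∏ p ∈ S, (1 + f p) with hG
  have hG0 : 0 ≤ G := Finset.prod_nonneg fun p hp => by linarith [hf0 p hp]
  have hGs : ∑ A ∈ S.powerset, ∏ p ∈ A, f p = G := by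
    rw [hG, Finset.prod_one_add]
  -- the term
  have hterm : ∀ A ∈ S.powerset, ((Wn ρ (∏ p ∈ A, p)).card : ℝ) / (Nat.totient (∏ p ∈ A, p) : ℝ) ≤
      √(∏ p ∈ A, f p) * √((∏ p ∈ A, f p) * ((∑ p ∈ A, Real.log (p : ℝ)) / Real.log ρ + 1)) := by
    intro A hA
    have hAS := Finset.mem_powerset.1 hA
    have hA' : ∀ p ∈ A, p.Prime := fun p hp => hS p (hAS hp)
    have h0 : (∏ p ∈ A, p) ≠ 0 := Finset.prod_ne_zero_iff.2 fun p hp => (hA' p hp).ne_zero
    have ha0 : 0 ≤ ∏ p ∈ A, f p := Finset.prod_nonneg fun p hp => hf0 p (hAS hp)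
    have hlogM : Real.log ((∏ p ∈ A, p : ℕ) : ℝ) = ∑ p ∈ A, Real.log (p : ℝ) := by
      rw [Nat.cast_prod, Real.log_prod]
      intro p hp
      exact_mod_cast (hA' p hp).ne_zero
    have h1 : ((Wn ρ (∏ p ∈ A, p)).card : ℝ) ≤ 2 ^ A.card := by exact_mod_cast card_Wn1 ρ A hA'
    have h2 := card_Wn2 ρ hρ _ h0
    rw [hlogM] at h2
    set E : ℝ := (∑ p ∈ A, Real.log (p : ℝ)) / Real.log ρ + 1 with hE
    have hE0 : 0 ≤ E := le_trans (Nat.cast_nonneg _) h2
    have h3 : ((Wn ρ (∏ p ∈ A, p)).card : ℝ) ≤ √2 ^ A.card * √E := by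
      have h4 : ((Wn ρ (∏ p ∈ A, p)).card : ℝ) ≤ √(2 ^ A.card * E) := by
        apply Real.le_sqrt_of_sq_le
        rw [sq]
        exact mul_le_mul h1 h2 (Nat.cast_nonneg _) (by positivity)
      rw [Real.sqrt_mul (by positivity)] at h4
      have h5 : √((2 : ℝ) ^ A.card) = √2 ^ A.card := by
        rw [Real.sqrt_eq_iff_mul_self_eq (by positivity) (by positivity), ← mul_pow,
          Real.mul_self_sqrt (by norm_num)]
      rwa [h5] at h4
    have h6 : ∏ p ∈ A, f p = √2 ^ A.card / (Nat.totient (∏ p ∈ A, p) : ℝ) := by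
      rw [totient_prod A hA', hf, Finset.prod_div_distrib, Finset.prod_const]
    rw [Real.sqrt_mul ha0, ← mul_assoc, Real.mul_self_sqrt ha0, h6, div_mul_eq_mul_div]
    exact div_le_div_of_nonneg_right h3 (Nat.cast_nonneg _)
  refine (Finset.sum_le_sum hterm).trans ?_
  refine (Real.sum_mul_le_sqrt_mul_sqrt _ _ _).trans ?_
  have hs1 : ∑ A ∈ S.powerset, √(∏ p ∈ A, f p) ^ 2 = G := by
    rw [← hGs]
    apply Finset.sum_congr rfl
    intro A hA
    rw [Real.sq_sqrt (Finset.prod_nonneg fun p hp => hf0 p (Finset.mem_powerset.1 hA hp))]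
  have hs2 : ∑ A ∈ S.powerset, √((∏ p ∈ A, f p) * ((∑ p ∈ A, Real.log (p : ℝ)) / Real.log ρ + 1)) ^ 2 ≤
      G * ((∑ p ∈ S, f p * Real.log p) / Real.log ρ + 1) := by
    have h1 : ∀ A ∈ S.powerset, √((∏ p ∈ A, f p) * ((∑ p ∈ A, Real.log (p : ℝ)) / Real.log ρ + 1)) ^ 2 =
        ((∏ p ∈ A, f p) * ∑ p ∈ A, Real.log (p : ℝ)) / Real.log ρ + ∏ p ∈ A, f p := by
      intro A hA
      have hAS := Finset.mem_powerset.1 hA
      rw [Real.sq_sqrt]
      · ring
      · apply mul_nonneg (Finset.prod_nonneg fun p hp => hf0 p (hAS hp))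
        have : 0 ≤ ∑ p ∈ A, Real.log (p : ℝ) := Finset.sum_nonneg fun p hp => hL0 p (hAS hp)
        positivity
    rw [Finset.sum_congr rfl h1, Finset.sum_add_distrib, ← Finset.sum_div, hGs]
    have h2 := sum_log_le S f (fun p => Real.log p) hf0 hL0
    have h3 := div_le_div_of_nonneg_right h2 hl.le
    calc _ ≤ ((∑ p ∈ S, f p * Real.log p) * G) / Real.log ρ + G := by linarith
      _ = _ := by ring
  have hE : 0 ≤ (∑ p ∈ S, f p * Real.log p) / Real.log ρ + 1 := by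
    have : 0 ≤ ∑ p ∈ S, f p * Real.log p := Finset.sum_nonneg fun p hp => mul_nonneg (hf0 p hp) (hL0 p hp)
    positivity
  rw [hs1]
  calc √G * √(∑ A ∈ S.powerset, √((∏ p ∈ A, f p) * ((∑ p ∈ A, Real.log (p : ℝ)) / Real.log ρ + 1)) ^ 2)
      ≤ √G * √(G * ((∑ p ∈ S, f p * Real.log p) / Real.log ρ + 1)) :=
        mul_le_mul_of_nonneg_left (Real.sqrt_le_sqrt hs2) (Real.sqrt_nonneg _)
    _ = G * √((∑ p ∈ S, f p * Real.log p) / Real.log ρ + 1) := by
        rw [Real.sqrt_mul hG0, ← mul_assoc, Real.mul_self_sqrt hG0]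

lemma G_le (w y : ℕ) :
    ∏ p ∈ (Ioc w y).filter Nat.Prime, (1 + √2 / ((p : ℝ) - 1)) ≤ (VW w y)⁻¹ ^ √2 := by
  have h1 : ∀ p ∈ (Ioc w y).filter Nat.Prime, 1 + √2 / ((p : ℝ) - 1) ≤ ((1 - 1 / (p : ℝ))⁻¹) ^ √2 := by
    intro p hp
    have hp2 : (2 : ℝ) ≤ p := by exact_mod_cast (Finset.mem_filter.1 hp).2.two_le
    have hp1 : (0 : ℝ) < p - 1 := by linarith
    have h2 : (1 - 1 / (p : ℝ))⁻¹ = 1 + 1 / ((p : ℝ) - 1) := by
      have : (1 - 1 / (p : ℝ)) = (p - 1) / p := by field_simp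
      rw [this]
      field_simp
      ring
    rw [h2]
    have h3 : (1 : ℝ) ≤ √2 := by
      rw [show (1 : ℝ) = √1 by simp]
      exact Real.sqrt_le_sqrt (by norm_num)
    have h4 := one_add_mul_self_le_rpow_one_add (s := 1 / ((p : ℝ) - 1)) (by have : 0 ≤ 1 / ((p : ℝ) - 1) := by positivity
                                                                             linarith) h3
    calc 1 + √2 / ((p : ℝ) - 1) = 1 + √2 * (1 / ((p : ℝ) - 1)) := by ring
      _ ≤ _ := h4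
  have h0 : ∀ p ∈ (Ioc w y).filter Nat.Prime, 0 ≤ 1 + √2 / ((p : ℝ) - 1) := by
    intro p hp
    have hp2 : (2 : ℝ) ≤ p := by exact_mod_cast (Finset.mem_filter.1 hp).2.two_le
    have hp1 : (0 : ℝ) < p - 1 := by linarith
    positivity
  refine (Finset.prod_le_prod h0 h1).trans (le_of_eq ?_)
  rw [Real.finsetProd_rpow]
  · unfold VW
    rw [Finset.prod_inv_distrib]
  · intro p hp
    have hp2 : (2 : ℝ) ≤ p := by exact_mod_cast (Finset.mem_filter.1 hp).2.two_le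
    have : 0 < 1 - 1 / (p : ℝ) := by rw [sub_pos, div_lt_one (by linarith)]; linarith
    exact inv_nonneg.2 this.le

lemma sum_log_bound : ∃ C : ℝ, 0 < C ∧ ∀ w y : ℕ, 2 ≤ y →
    ∑ p ∈ (Ioc w y).filter Nat.Prime, √2 / ((p : ℝ) - 1) * Real.log p ≤ C * Real.log y := by
  obtain ⟨C1, hC10, hC1⟩ := Pool.Agent.Erdos456.Mert.sum_small_bound
  obtain ⟨C2, hC2⟩ := Pool.Agent.Erdos456.Mert.mertens_log
  have hC20 : 0 ≤ C2 := (abs_nonneg _).trans (hC2 1 le_rfl)
  have hl2 : (0 : ℝ) < Real.log 2 := Real.log_pos (by norm_num)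
  refine ⟨√2 * (1 + (C1 + C2) / Real.log 2), by positivity, ?_⟩
  intro w y hy
  have hly : Real.log 2 ≤ Real.log y := Real.log_le_log (by norm_num) (by exact_mod_cast hy)
  have h1 := (abs_le.1 (hC2 y (by omega))).2
  have h2 := hC1 y
  have h3 : ∑ p ∈ (Ioc w y).filter Nat.Prime, √2 / ((p : ℝ) - 1) * Real.log p ≤
      ∑ p ∈ (Icc 1 y).filter Nat.Prime, √2 / ((p : ℝ) - 1) * Real.log p := by
    apply Finset.sum_le_sum_of_subset_of_nonneg
    · intro p hp
      simp only [Finset.mem_filter, Finset.mem_Ioc, Finset.mem_Icc] at hp ⊢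
      exact ⟨⟨hp.2.one_lt.le, hp.1.2⟩, hp.2⟩
    · intro p hp _
      have hp2 : (2 : ℝ) ≤ p := by exact_mod_cast (Finset.mem_filter.1 hp).2.two_le
      have hp1 : (0 : ℝ) < p - 1 := by linarith
      have : 0 ≤ Real.log p := Real.log_nonneg (by linarith)
      positivity
  have h4 : ∑ p ∈ (Icc 1 y).filter Nat.Prime, √2 / ((p : ℝ) - 1) * Real.log p =
      √2 * (∑ p ∈ (Icc 1 y).filter Nat.Prime, Real.log p / p +
        ∑ p ∈ (Icc 1 y).filter Nat.Prime, Real.log p / (p * (p - 1))) := by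
    rw [← Finset.sum_add_distrib, Finset.mul_sum]
    apply Finset.sum_congr rfl
    intro p hp
    have hp2 : (2 : ℝ) ≤ p := by exact_mod_cast (Finset.mem_filter.1 hp).2.two_le
    have hp1 : (p : ℝ) - 1 ≠ 0 := by
      have : (0 : ℝ) < p - 1 := by linarith
      exact this.ne'
    have hp0 : (p : ℝ) ≠ 0 := by
      have : (0 : ℝ) < p := by linarith
      exact this.ne'
    field_simp
    ring
  refine h3.trans (h4.le.trans ?_)
  rw [mul_assoc]
  apply mul_le_mul_of_nonneg_left _ (Real.sqrt_nonneg _)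
  have h5 : (C1 + C2) ≤ (C1 + C2) / Real.log 2 * Real.log y := by
    rw [div_mul_eq_mul_div, le_div_iff₀ hl2]
    exact mul_le_mul_of_nonneg_left hly (by positivity)
  have h6 : ∑ p ∈ (Icc 1 y).filter Nat.Prime, Real.log p / p ≤ Real.log y + C2 := by linarith
  calc _ ≤ (Real.log y + C2) + C1 := add_le_add h6 h2
    _ ≤ _ := by linarith

theorem t_EK : S_EK := by
  obtain ⟨C0, hC0, hM1, -⟩ := t_MER
  obtain ⟨C1, hC1, hsum⟩ := sum_log_bound
  have hl2 : (0 : ℝ) < Real.log 2 := Real.log_pos (by norm_num)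
  have hs2a : (1.414 : ℝ) < √2 := by
    apply Real.lt_sqrt_of_sq_lt; norm_num
  have hs2b : √2 < (1.4145 : ℝ) := by
    rw [Real.sqrt_lt' (by norm_num)]; norm_num
  refine ⟨C0 ^ (2 - √2) * √(2 * C1 + 1 / Real.log 2) * (Real.log 2 ^ ((2 - √2) - 3 / 5) *
    Real.log 2 ^ (-(2 - √2) + 1 / 2 + 1 / 12)), by positivity, ?_⟩
  intro w y ρ hw hwy hρ hρ2
  have hw' : (0 : ℝ) < Real.log w := Real.log_pos (by exact_mod_cast hw)
  have hy2 : 2 ≤ y := hw.trans hwy
  have hy' : (0 : ℝ) < Real.log y := Real.log_pos (by exact_mod_cast hy2)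
  have hlw : Real.log 2 ≤ Real.log w := Real.log_le_log (by norm_num) (by exact_mod_cast hw)
  have hly : Real.log 2 ≤ Real.log y := Real.log_le_log (by norm_num) (by exact_mod_cast hy2)
  have hV := VW_pos w y
  have hρ0 : 0 < ρ - 1 := by linarith
  have hlρ : 0 < Real.log ρ := Real.log_pos hρ
  have hlρ2 : (ρ - 1) / 2 ≤ Real.log ρ := by
    have h1 := Real.one_sub_inv_le_log_of_pos (by linarith : 0 < ρ)
    have h2 : (ρ - 1) / 2 ≤ 1 - ρ⁻¹ := by
      have : 1 - ρ⁻¹ = (ρ - 1) / ρ := by field_simp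
      rw [this]
      exact div_le_div_of_nonneg_left hρ0.le (by linarith) hρ2
    linarith
  -- the core bound
  have hcore := core ((Ioc w y).filter Nat.Prime) (fun p hp => (Finset.mem_filter.1 hp).2) ρ hρ
  have hG := G_le w y
  have hsum' := hsum w y hy2
  have hE : (∑ p ∈ (Ioc w y).filter Nat.Prime, √2 / ((p : ℝ) - 1) * Real.log p) / Real.log ρ + 1 ≤
      (2 * C1 + 1 / Real.log 2) * (Real.log y * (ρ - 1)⁻¹) := by
    have h1 : (∑ p ∈ (Ioc w y).filter Nat.Prime, √2 / ((p : ℝ) - 1) * Real.log p) / Real.log ρ ≤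
        2 * C1 * (Real.log y * (ρ - 1)⁻¹) := by
      calc _ ≤ C1 * Real.log y / Real.log ρ := div_le_div_of_nonneg_right hsum' hlρ.le
        _ ≤ C1 * Real.log y / ((ρ - 1) / 2) :=
            div_le_div_of_nonneg_left (by positivity) (by positivity) hlρ2
        _ = _ := by field_simp
    have h2 : (1 : ℝ) ≤ 1 / Real.log 2 * (Real.log y * (ρ - 1)⁻¹) := by
      have h3 : (1 : ℝ) ≤ (ρ - 1)⁻¹ := by
        rw [one_le_inv₀ hρ0]; linarith
      have h4 : (1 : ℝ) ≤ 1 / Real.log 2 * Real.log y := by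
        rw [one_div_mul_eq_div, one_le_div hl2]; exact hly
      calc (1 : ℝ) = 1 * 1 := by ring
        _ ≤ (1 / Real.log 2 * Real.log y) * (ρ - 1)⁻¹ :=
            mul_le_mul h4 h3 (by norm_num) (by positivity)
        _ = _ := by ring
    calc _ ≤ 2 * C1 * (Real.log y * (ρ - 1)⁻¹) + 1 / Real.log 2 * (Real.log y * (ρ - 1)⁻¹) := add_le_add h1 h2
      _ = _ := by ring
  have hsqrt : √((∑ p ∈ (Ioc w y).filter Nat.Prime, √2 / ((p : ℝ) - 1) * Real.log p) / Real.log ρ + 1) ≤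
      √(2 * C1 + 1 / Real.log 2) * (Real.log y ^ (1 / 2 : ℝ) * (ρ - 1) ^ (-(1 / 2) : ℝ)) := by
    refine (Real.sqrt_le_sqrt hE).trans (le_of_eq ?_)
    rw [Real.sqrt_mul (by positivity), Real.sqrt_mul hy'.le, Real.sqrt_eq_rpow (Real.log y),
      Real.sqrt_eq_rpow ((ρ - 1)⁻¹), Real.inv_rpow hρ0.le, Real.rpow_neg hρ0.le]
  have hVle : VW w y ≤ C0 * (Real.log w / Real.log y) := by
    have h1 := (hM1 w y hw hwy).1
    rw [div_le_iff₀ hw'] at h1
    rw [← mul_div_assoc, le_div_iff₀ hy']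
    have h2 := mul_le_mul_of_nonneg_left h1 hV.le
    calc VW w y * Real.log y ≤ VW w y * (C0 * (VW w y)⁻¹ * Real.log w) := h2
      _ = C0 * Real.log w := by field_simp
  have hV2 : VW w y ^ 2 * (VW w y)⁻¹ ^ √2 = VW w y ^ (2 - √2) := by
    rw [Real.inv_rpow hV.le, ← Real.rpow_neg hV.le, ← Real.rpow_natCast, ← Real.rpow_add hV]
    norm_num
    rfl
  have hV3 : VW w y ^ (2 - √2) ≤ C0 ^ (2 - √2) * (Real.log w ^ (2 - √2) * Real.log y ^ (-(2 - √2))) := by
    refine (Real.rpow_le_rpow hV.le hVle (by linarith)).trans (le_of_eq ?_)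
    rw [Real.mul_rpow (by linarith) (by positivity), Real.div_rpow hw'.le hy'.le, Real.rpow_neg hy'.le,
      div_eq_mul_inv]
  have hw3 : Real.log w ^ (2 - √2) ≤ Real.log 2 ^ ((2 - √2) - 3 / 5) * Real.log w ^ (3 / 5 : ℝ) := by
    have h1 : Real.log w ^ (2 - √2) = Real.log w ^ ((2 - √2) - 3 / 5) * Real.log w ^ (3 / 5 : ℝ) := by
      rw [← Real.rpow_add hw']; congr 1; ring
    rw [h1]
    apply mul_le_mul_of_nonneg_right _ (Real.rpow_nonneg hw'.le _)
    exact Real.rpow_le_rpow_of_nonpos hl2 hlw (by linarith)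
  have hy3 : Real.log y ^ (-(2 - √2)) * Real.log y ^ (1 / 2 : ℝ) ≤
      Real.log 2 ^ (-(2 - √2) + 1 / 2 + 1 / 12) * Real.log y ^ (-(1 / 12) : ℝ) := by
    have h1 : Real.log y ^ (-(2 - √2)) * Real.log y ^ (1 / 2 : ℝ) =
        Real.log y ^ (-(2 - √2) + 1 / 2 + 1 / 12) * Real.log y ^ (-(1 / 12) : ℝ) := by
      rw [← Real.rpow_add hy', ← Real.rpow_add hy']; congr 1; ring
    rw [h1]
    apply mul_le_mul_of_nonneg_right _ (Real.rpow_nonneg hy'.le _)
    exact Real.rpow_le_rpow_of_nonpos hl2 hly (by linarith)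
  have hG0 : 0 ≤ ∏ p ∈ (Ioc w y).filter Nat.Prime, (1 + √2 / ((p : ℝ) - 1)) := by
    apply Finset.prod_nonneg
    intro p hp
    have hp2 : (2 : ℝ) ≤ p := by exact_mod_cast (Finset.mem_filter.1 hp).2.two_le
    have hp1 : (0 : ℝ) < p - 1 := by linarith
    positivity
  unfold PP
  calc VW w y ^ 2 * ∑ M ∈ (∏ p ∈ (Ioc w y).filter Nat.Prime, p).divisors,
        ((Wn ρ M).card : ℝ) / (Nat.totient M : ℝ)
      ≤ VW w y ^ 2 * ((VW w y)⁻¹ ^ √2 *
        (√(2 * C1 + 1 / Real.log 2) * (Real.log y ^ (1 / 2 : ℝ) * (ρ - 1) ^ (-(1 / 2) : ℝ)))) := by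
        apply mul_le_mul_of_nonneg_left _ (by positivity)
        refine hcore.trans ?_
        exact mul_le_mul hG hsqrt (Real.sqrt_nonneg _) (by positivity)
    _ = VW w y ^ (2 - √2) * (√(2 * C1 + 1 / Real.log 2) *
        (Real.log y ^ (1 / 2 : ℝ) * (ρ - 1) ^ (-(1 / 2) : ℝ))) := by
        rw [← hV2]; ring
    _ ≤ (C0 ^ (2 - √2) * (Real.log w ^ (2 - √2) * Real.log y ^ (-(2 - √2)))) *
        (√(2 * C1 + 1 / Real.log 2) * (Real.log y ^ (1 / 2 : ℝ) * (ρ - 1) ^ (-(1 / 2) : ℝ))) :=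
        mul_le_mul_of_nonneg_right hV3 (by positivity)
    _ = C0 ^ (2 - √2) * √(2 * C1 + 1 / Real.log 2) * (ρ - 1) ^ (-(1 / 2) : ℝ) *
        (Real.log w ^ (2 - √2) * (Real.log y ^ (-(2 - √2)) * Real.log y ^ (1 / 2 : ℝ))) := by ring
    _ ≤ C0 ^ (2 - √2) * √(2 * C1 + 1 / Real.log 2) * (ρ - 1) ^ (-(1 / 2) : ℝ) *
        ((Real.log 2 ^ ((2 - √2) - 3 / 5) * Real.log w ^ (3 / 5 : ℝ)) *
          (Real.log 2 ^ (-(2 - √2) + 1 / 2 + 1 / 12) * Real.log y ^ (-(1 / 12) : ℝ))) := by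
        apply mul_le_mul_of_nonneg_left _ (by positivity)
        exact mul_le_mul hw3 hy3 (by positivity) (by positivity)
    _ = _ := by ring

end Pool.Agent.N40.QL
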